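import Pool.Agent.Lib.LD.Def

/-!
# LD24, file S49: small sets and cycles are never in `U` (S4, S9 of form D, MP_33911d)
-/

set_option autoImplicit false

namespace LD

open Finset H98M H85TF

variable {V : Type*} [DecidableEq V]

/-- Both sides of a separation contain a neighbour of `x`. -/
theorem Sep.nbr {E : Finset (Sym2 V)} {Y : Finset V} {x y : V} {P Q : Finset V} (hT : TCY E Y)
    (h : Sep E Y x y P Q) : ∃ a ∈ P, s(x, a) ∈ E := by
  by_contra hcon
  push Not at hcon
  have hy : y ∈ Y := by rw [← h.eq]; simp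
  refine hT.conn' y hy ⟨P, insert x Q, h.P0, ⟨x, mem_insert_self _ _⟩, ?_, ?_, ?_⟩
  · rw [disjoint_insert_right]
    exact ⟨h.xP, h.dis⟩
  · ext v
    have h1 : v ∈ Y ↔ v = x ∨ v = y ∨ v ∈ P ∨ v ∈ Q := by rw [← h.eq]; simp
    simp only [mem_union, mem_insert, mem_erase, h1]
    constructor
    · rintro (h2 | h2 | h2)
      · exact ⟨fun h3 => h.yP (h3 ▸ h2), Or.inr (Or.inr (Or.inl h2))⟩
      · exact ⟨fun h3 => h.ne (h2.symm.trans h3), Or.inl h2⟩
      · exact ⟨fun h3 => h.yQ (h3 ▸ h2), Or.inr (Or.inr (Or.inr h2))⟩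
    · rintro ⟨h2, h3 | h3 | h3 | h3⟩
      · exact Or.inr (Or.inl h3)
      · exact absurd h3 h2
      · exact Or.inl h3
      · exact Or.inr (Or.inr h3)
  · intro a ha b hb
    rcases mem_insert.1 hb with rfl | hb
    · rw [Sym2.eq_swap]; exact hcon a ha
    · exact h.noE a ha b hb

theorem dg_outside {E : Finset (Sym2 V)} {Y : Finset V} (hT : TCY E Y) {v : V} (hv : v ∉ Y) :
    dg E v = 0 := by
  unfold dg
  rw [filter_false_of_mem (fun e he h1 => hv (hT.sub e he v h1)), card_empty]

theorem red_swap (E : Finset (Sym2 V)) (Y : Finset V) (x y : V) (Q : Finset V) :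
    red E Y x y Q = red E Y y x Q := by
  unfold red
  rw [Sym2.eq_swap]

/-- Degrees in the reduced graph at the vertices of the remaining side. -/
theorem dg_red_side {E : Finset (Sym2 V)} {Y : Finset V} {x y : V} {P Q : Finset V} (hT : TCY E Y)
    (h : Sep E Y x y P Q) {v : V} (hv : v ∈ P) : dg (red E Y x y Q) v = dg E v := by
  unfold dg red
  congr 1
  ext e
  simp only [mem_filter, mem_insert, mem_inter, mem_sym2_iff, mem_sdiff]
  constructor
  · rintro ⟨rfl | h1, h2⟩
    · rcases Sym2.mem_iff.1 h2 with rfl | rfl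
      · exact absurd hv h.xP
      · exact absurd hv h.yP
    · exact ⟨h1.1, h2⟩
  · rintro ⟨h1, h2⟩
    refine ⟨Or.inr ⟨h1, fun w hw => ⟨hT.sub e h1 w hw, fun h3 => ?_⟩⟩, h2⟩
    have h4 : v ≠ w := fun h5 => (disjoint_left.1 h.dis hv) (h5 ▸ h3)
    have h5 : e = s(v, w) := (Sym2.mem_and_mem_iff h4).1 ⟨h2, hw⟩
    exact h.noE v hv w h3 (h5 ▸ h1)

/-- A vertex `x` of a separation which has degree `2` has degree `2` in the reduced graph. -/
theorem dg_red_cut {E : Finset (Sym2 V)} {Y : Finset V} {x y : V} {P Q : Finset V} (hT : TCY E Y)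
    (h : Sep E Y x y P Q) (hx : dg E x = 2) : dg (red E Y x y Q) x = 2 := by
  obtain ⟨a, haP, ha⟩ := h.nbr hT
  obtain ⟨b, hbQ, hb⟩ := h.symm.nbr hT
  have hab : a ≠ b := fun h1 => (disjoint_left.1 h.dis haP) (h1 ▸ hbQ)
  have hay : a ≠ y := fun h1 => h.yP (h1 ▸ haP)
  have hby : b ≠ y := fun h1 => h.yQ (h1 ▸ hbQ)
  have hne : s(x, a) ≠ s(x, b) := fun h1 => hab (Sym2.congr_right.1 h1)
  have hE : E.filter (fun e => x ∈ e) = {s(x, a), s(x, b)} := by
    symm
    refine eq_of_subset_of_card_le ?_ ?_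
    · intro e he
      simp only [mem_insert, mem_singleton] at he
      rcases he with rfl | rfl
      · exact mem_filter.2 ⟨ha, by simp⟩
      · exact mem_filter.2 ⟨hb, by simp⟩
    · rw [card_pair hne]
      exact hx.le
  have hR : (red E Y x y Q).filter (fun e => x ∈ e) = {s(x, y), s(x, a)} := by
    ext e
    simp only [red, mem_filter, mem_insert, mem_inter, mem_sym2_iff, mem_sdiff, mem_singleton]
    constructor
    · rintro ⟨rfl | ⟨h1, h2⟩, h3⟩
      · exact Or.inl rfl
      · have h4 : e ∈ E.filter (fun e => x ∈ e) := mem_filter.2 ⟨h1, h3⟩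
        rw [hE] at h4
        simp only [mem_insert, mem_singleton] at h4
        rcases h4 with rfl | rfl
        · exact Or.inr rfl
        · exact absurd hbQ (h2 b (by simp)).2
    · rintro (rfl | rfl)
      · exact ⟨Or.inl rfl, by simp⟩
      · refine ⟨Or.inr ⟨ha, fun w hw => ?_⟩, by simp⟩
        refine ⟨hT.sub _ ha w hw, fun h1 => ?_⟩
        rcases Sym2.mem_iff.1 hw with rfl | rfl
        · exact h.xQ h1
        · exact (disjoint_left.1 h.dis haP) h1
  unfold dg
  rw [hR, card_pair]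
  intro h1
  exact hay (Sym2.congr_right.1 h1).symm

/-- (S9) The sets of a cycle are never in `U`. -/
theorem u_cycle_of
    (S1 : ∀ (E : Finset (Sym2 V)) (Y : Finset V) (x y : V) (P Q : Finset V), TCY E Y →
      Sep E Y x y P Q → TCY (red E Y x y Q) (Y \ Q))
    {E : Finset (Sym2 V)} {Y W : Finset V} (hU : U E Y W) :
    TCY E Y → ¬ ∀ v ∈ Y, dg E v = 2 := by
  induction hU with
  | @base E Y W h =>
    intro hT hd
    refine h ⟨E, Subset.rfl, fun v => ?_, fun v hv => hd v (mem_inter.1 hv).2⟩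
    by_cases hv : v ∈ Y
    · exact Or.inr (hd v hv)
    · exact Or.inl (dg_outside hT hv)
  | @step E Y W x y P Q hs _ ih =>
    intro hT hd
    refine ih (S1 E Y x y P Q hT hs) fun v hv => ?_
    obtain ⟨hvY, hvQ⟩ := mem_sdiff.1 hv
    have hx : x ∈ Y := by rw [← hs.eq]; simp
    have hy : y ∈ Y := by rw [← hs.eq]; simp
    have h1 : v = x ∨ v = y ∨ v ∈ P ∨ v ∈ Q := by
      have := hvY
      rw [← hs.eq] at this
      simpa using this
    rcases h1 with rfl | rfl | h1 | h1
    · exact dg_red_cut hT hs (hd v hx)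
    · rw [red_swap]
      exact dg_red_cut hT hs.flip (hd v hy)
    · rw [dg_red_side hT hs h1]
      exact hd v hvY
    · exact absurd h1 hvQ

/-- (S4) Sets with at most two vertices are never in `U`. -/
theorem u_two_of
    (S1 : ∀ (E : Finset (Sym2 V)) (Y : Finset V) (x y : V) (P Q : Finset V), TCY E Y →
      Sep E Y x y P Q → TCY (red E Y x y Q) (Y \ Q))
    (S3 : ∀ (E : Finset (Sym2 V)) (Y : Finset V) (a b : V), TCY E Y → a ∈ Y → b ∈ Y → Cov E {a, b})
    {E : Finset (Sym2 V)} {Y W : Finset V} (hU : U E Y W) :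
    TCY E Y → ¬ (W ∩ Y).card ≤ 2 := by
  induction hU with
  | @base E Y W h =>
    intro hT hc
    apply h
    rcases Nat.lt_or_ge (W ∩ Y).card 2 with h2 | h2
    · rcases Nat.lt_or_ge (W ∩ Y).card 1 with h1 | h1
      · have h0 : W ∩ Y = ∅ := card_eq_zero.1 (by omega)
        rw [h0]
        exact ⟨∅, empty_subset _, fun v => Or.inl (by simp [dg]), by simp⟩
      · obtain ⟨a, ha⟩ := card_eq_one.1 (by omega : (W ∩ Y).card = 1)
        have haY : a ∈ Y := by
          have : a ∈ W ∩ Y := by rw [ha]; simp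
          exact (mem_inter.1 this).2
        rw [ha]
        obtain ⟨F, h3, h4, h5⟩ := S3 E Y a a hT haY haY
        exact ⟨F, h3, h4, fun v hv => h5 v (by simpa using hv)⟩
    · obtain ⟨a, b, hab, hW⟩ := card_eq_two.1 (le_antisymm hc h2)
      have haY : a ∈ Y := by
        have : a ∈ W ∩ Y := by rw [hW]; simp
        exact (mem_inter.1 this).2
      have hbY : b ∈ Y := by
        have : b ∈ W ∩ Y := by rw [hW]; simp
        exact (mem_inter.1 this).2
      rw [hW]
      exact S3 E Y a b hT haY hbY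
  | @step E Y W x y P Q hs _ ih =>
    intro hT hc
    exact ih (S1 E Y x y P Q hT hs)
      ((card_le_card (inter_subset_inter_left sdiff_subset)).trans hc)

end LD
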